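import Pool.Agent.Run7.h229.SG.Iface

/-! Project SG (helper229), piece LIM: the direct limit of the chain. -/

set_option autoImplicit false

open Polynomial Topology Filter

namespace Run7.h531.SG

open Pool.Agent.Run7.h229.SG

section lim

variable (G : ℕ → Type) [∀ n, Field (G n)] (s : ∀ n, G n →+* G (n + 1))

/-- the transition maps -/
noncomputable def tr (i j : ℕ) (h : i ≤ j) : G i →+* G j :=
  Nat.leRec (motive := fun j _ => G i →+* G j) (RingHom.id (G i)) (fun j _ g => (s j).comp g) h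

theorem tr_self (i : ℕ) : tr G s i i le_rfl = RingHom.id _ := by
  unfold tr
  rw [Nat.leRec_self]

theorem tr_succ (i j : ℕ) (h : i ≤ j) (h' : i ≤ j + 1) :
    tr G s i (j + 1) h' = (s j).comp (tr G s i j h) := by
  unfold tr
  rw [Nat.leRec_succ _ _ h]

theorem tr_tr (i j k : ℕ) (hij : i ≤ j) (hjk : j ≤ k) (x : G i) :
    tr G s j k hjk (tr G s i j hij x) = tr G s i k (hij.trans hjk) x := by
  induction k, hjk using Nat.le_induction with
  | base =>
    rw [tr_self]
    rfl
  | succ k hjk ih =>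
    rw [tr_succ G s j k hjk, tr_succ G s i k (hij.trans hjk), RingHom.comp_apply,
      RingHom.comp_apply, ih]

instance dsys : DirectedSystem G (fun i j h => (tr G s i j h : G i → G j)) where
  map_self i x := by
    rw [tr_self]
    rfl
  map_map k j i hij hjk x := tr_tr G s _ _ _ hij hjk x

theorem exists_lim : ∃ (W : Type) (_ : Field W) (φ : ∀ n, G n →+* W),
    (∀ n x, φ (n + 1) (s n x) = φ n x) ∧ ∀ w, ∃ n x, φ n x = w := by
  let f : ∀ i j (h : i ≤ j), G i →+* G j := fun i j h => tr G s i j h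
  have : DirectedSystem G (fun i j h => (f i j h : G i → G j)) := dsys G s
  let φ : ∀ n, G n →+* DirectLimit G f := fun n =>
    { toFun := fun x => (⟦⟨n, x⟩⟧ : DirectLimit G f)
      map_one' := (DirectLimit.one_def n).symm
      map_mul' := fun x y => (DirectLimit.mul_def n x y).symm
      map_zero' := (DirectLimit.zero_def n).symm
      map_add' := fun x y => (DirectLimit.add_def n x y).symm }
  refine ⟨DirectLimit G f, inferInstance, φ, fun n x => ?_, fun w => ?_⟩
  · have h := DirectLimit.mk_apply (f := f) n (n + 1) x (Nat.le_succ n)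
    have e : f n (n + 1) (Nat.le_succ n) x = s n x := by
      show tr G s n (n + 1) _ x = _
      rw [tr_succ G s n n le_rfl, tr_self]
      rfl
    rw [e] at h
    exact h
  · obtain ⟨n, x, h⟩ := DirectLimit.exists_eq_mk (f := f) w
    exact ⟨n, x, h.symm⟩

end lim

theorem lift_poly {A B : Type} [Field A] [Field B] (f : A →+* B) (Q : B[X])
    (h : ∀ j, ∃ a, f a = Q.coeff j) : ∃ Q0 : A[X], Q0.map f = Q := by
  have : Q ∈ Polynomial.lifts f := by
    rw [Polynomial.lifts_iff_coeff_lifts]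
    exact fun n => h n
  exact (Polynomial.mem_lifts Q).1 this

theorem tower_of (G : ℕ → Type) [∀ n, Field (G n)] [∀ n, IsAlgClosed (G n)]
    (s : ∀ n, G n →+* G (n + 1)) (mu : ∀ n, AddSubgroup (G (n + 1)))
    (hS : ∀ n, Step (G n) (G (n + 1)) (s n) (mu n)) (W : Type) [Field W]
    (φ : ∀ n, G n →+* W) (hφ : ∀ n x, φ (n + 1) (s n x) = φ n x)
    (hex : ∀ w, ∃ n x, φ n x = w) : Nonempty (Tower W) := by
  have hcomp : ∀ n, (φ (n + 1)).comp (s n) = φ n := fun n => RingHom.ext (hφ n)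
  refine ⟨{
    K := fun n => (φ n).fieldRange
    mu := fun n => (mu n).map (φ (n + 1)).toAddMonoidHom
    mono := ?_
    exh := ?_
    cub := ?_
    mu_le := ?_
    smul := ?_
    mul := ?_
    disj := ?_
    inv := ?_
    sep := ?_
    silver := ?_
    ngold := ?_ }⟩
  · rintro n _ ⟨x, rfl⟩
    exact ⟨s n x, hφ n x⟩
  · intro w
    obtain ⟨n, x, h⟩ := hex w
    exact ⟨n, x, h⟩
  · rintro n _ z ⟨t, rfl⟩ hz
    have hne : (X ^ 3 + X ^ 2 + C t : (G n)[X]) ≠ 0 := by
      intro h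
      have := congrArg (fun p => coeff p 3) h
      simp [coeff_X_pow] at this
    have hsp : (X ^ 3 + X ^ 2 + C t : (G n)[X]).Splits := IsAlgClosed.splits _
    have hr : ((X ^ 3 + X ^ 2 + C t : (G n)[X]).map (φ n)).IsRoot z := by
      simp only [Polynomial.map_add, Polynomial.map_pow, Polynomial.map_X, Polynomial.map_C,
        IsRoot.def, eval_add, eval_pow, eval_X, eval_C]
      exact hz
    exact hsp.mem_range_of_isRoot hne hr
  · rintro n _ ⟨x, hx, rfl⟩
    exact ⟨x, rfl⟩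
  · rintro n _ _ ⟨a, rfl⟩ ⟨x, hx, rfl⟩
    refine ⟨s n a * x, (hS n).smul a x hx, ?_⟩
    show φ (n + 1) (s n a * x) = φ n a * φ (n + 1) x
    rw [map_mul, hφ]
  · rintro n _ _ ⟨x, hx, rfl⟩ ⟨y, hy, rfl⟩
    refine ⟨x * y, (hS n).mul x y hx hy, ?_⟩
    show φ (n + 1) (x * y) = φ (n + 1) x * φ (n + 1) y
    rw [map_mul]
  · rintro n _ ⟨a, rfl⟩ ⟨x, hx, h⟩
    have h1 : φ (n + 1) x = φ (n + 1) (s n a) := by
      rw [hφ]
      exact h
    have h2 : x = s n a := (φ (n + 1)).injective h1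
    rw [h2] at hx
    show φ n a = 0
    rw [(hS n).disj a hx, map_zero]
  · rintro n _ ⟨x, hx, rfl⟩
    obtain ⟨y, hy, h⟩ := (hS n).inv x hx
    refine ⟨φ (n + 1) y, ⟨y, hy, rfl⟩, ?_⟩
    show (1 + φ (n + 1) x) * (1 + φ (n + 1) y) = 1
    rw [← map_one (φ (n + 1)), ← map_add, ← map_add, ← map_mul, h]
  · intro n Q D hQ hsep hQK hD hdeg
    obtain ⟨Q0, rfl⟩ := lift_poly (φ n) Q fun j => hQK j
    obtain ⟨D0, rfl⟩ := lift_poly (φ (n + 1)) D fun j => by
      obtain ⟨x, _, h⟩ := hD j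
      exact ⟨x, h⟩
    have hQ0 : Q0.Monic := (Polynomial.monic_map_iff).1 hQ
    have hs0 : Q0.Separable := (Polynomial.separable_map (φ n)).1 hsep
    have hD0 : ∀ j, D0.coeff j ∈ mu n := by
      intro j
      obtain ⟨x, hx, h⟩ := hD j
      rw [Polynomial.coeff_map] at h
      have : x = D0.coeff j := (φ (n + 1)).injective h
      rwa [← this]
    have hdeg0 : D0.degree < Q0.degree := by
      rwa [Polynomial.degree_map, Polynomial.degree_map] at hdeg
    have h := (hS n).sep Q0 D0 hQ0 hs0 hD0 hdeg0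
    have h2 := (Polynomial.separable_map (φ (n + 1))).2 h
    rwa [Polynomial.map_add, Polynomial.map_map, hcomp] at h2
  · rintro n Q D hQ hsep hQK hD hdeg _ ⟨a, rfl⟩ ha
    obtain ⟨Q0, rfl⟩ := lift_poly (φ n) Q fun j => hQK j
    obtain ⟨D0, rfl⟩ := lift_poly (φ (n + 1)) D fun j => by
      obtain ⟨x, _, h⟩ := hD j
      exact ⟨x, h⟩
    have hQ0 : Q0.Monic := (Polynomial.monic_map_iff).1 hQ
    have hs0 : Q0.Separable := (Polynomial.separable_map (φ n)).1 hsep
    have hD0 : ∀ j, D0.coeff j ∈ mu n := by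
      intro j
      obtain ⟨x, hx, h⟩ := hD j
      rw [Polynomial.coeff_map] at h
      have : x = D0.coeff j := (φ (n + 1)).injective h
      rwa [← this]
    have hdeg0 : D0.degree < Q0.degree := by
      rwa [Polynomial.degree_map, Polynomial.degree_map] at hdeg
    have ha0 : Q0.IsRoot a := by
      have ha' : (Q0.map (φ n)).eval (φ n a) = 0 := ha
      rw [Polynomial.eval_map, Polynomial.eval₂_at_apply] at ha'
      exact (map_eq_zero (φ n)).1 ha'
    obtain ⟨x, hx, hr⟩ := (hS n).silver Q0 D0 hQ0 hs0 hD0 hdeg0 a ha0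
    refine ⟨φ (n + 1) x, ⟨x, hx, rfl⟩, ?_⟩
    have h2 : ((Q0.map (s n) + D0).map (φ (n + 1))).eval (φ (n + 1) (s n a + x)) = 0 := by
      rw [Polynomial.eval_map, Polynomial.eval₂_at_apply]
      have h3 : (Q0.map (s n) + D0).eval (s n a + x) = 0 := hr
      rw [h3, map_zero]
    rw [Polynomial.map_add, Polynomial.map_map, hcomp, map_add, hφ] at h2
    exact h2
  · intro n
    obtain ⟨t, ht, h⟩ := (hS n).ngold
    refine ⟨φ (n + 1) t, ⟨t, ht, rfl⟩, ?_⟩
    rintro _ ⟨x, hx, rfl⟩ h0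
    apply h x hx
    apply (φ (n + 1)).injective
    rw [map_zero, map_add, map_add, map_pow, map_pow, map_add, map_neg, map_one]
    exact h0

/-- an algebraically closed field -/
structure Lev : Type 1 where
  /-- the field -/
  K : Type
  [fld : Field K]
  [ac : IsAlgClosed K]

attribute [instance] Lev.fld Lev.ac

theorem chain (hSTP : S_STP) : ∃ (G : ℕ → Type) (_ : ∀ n, Field (G n))
    (_ : ∀ n, IsAlgClosed (G n)) (s : ∀ n, G n →+* G (n + 1))
    (mu : ∀ n, AddSubgroup (G (n + 1))), ∀ n, Step (G n) (G (n + 1)) (s n) (mu n) := by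
  choose L fL aL i mu hst using hSTP
  let nxt : Lev → Lev := fun A => @Lev.mk (L A.K) (fL A.K) (aL A.K)
  let lev : ℕ → Lev := fun n => Nat.rec (⟨ℂ⟩ : Lev) (fun _ A => nxt A) n
  exact ⟨fun n => (lev n).K, fun n => (lev n).fld, fun n => (lev n).ac,
    fun n => @i (lev n).K (lev n).fld (lev n).ac,
    fun n => @mu (lev n).K (lev n).fld (lev n).ac,
    fun n => @hst (lev n).K (lev n).fld (lev n).ac⟩

theorem t_LIM : S_STP → S_LIM := by
  intro hSTP
  obtain ⟨G, _, _, s, mu, hS⟩ := chain hSTP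
  obtain ⟨W, fW, φ, h1, h2⟩ := exists_lim G s
  exact ⟨W, fW, tower_of G s mu hS W φ h1 h2⟩

end Run7.h531.SG
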